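import Pool.Agent.H997R3.Gon.Example

/-!
# Odd regular subdivisions lower the divisorial gonality of graphs of arbitrarily large gonality

The graphs, the Laplacian, the divisors of rank at least one, the divisorial gonality `gon` and
the regular subdivision `G.subdiv k` are those of `Pool.Agent.H997R3.Gon.Defs`.

The starting files contain one graph `G` whose gonality drops from `29` to `28` under all regular
subdivisions; it belongs to an integral metric on eight points which is not the symmetrisation of an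
integral quasi-metric although all its multiples `k L`, `k ≥ 2`, are. Here this metric is extended to
`n ≥ 8` points by the distance `4`, and the multiplicity of the parallel edges is varied. This gives
for each `n ≥ 8` infinitely many graphs whose gonality is larger than `n (n - 1) / 2` while the
gonalities of all their regular subdivisions are at most `n (n - 1) / 2`.
-/

set_option autoImplicit false

namespace Pool.Agent.Results.MP_d0d5df_co.LargeGonality

open Pool.Agent.H997R3.Gon Finset

/-- the metric on `n` points -/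
def LL (n : ℕ) (u v : Fin n) : ℕ :=
  if h : u.val < 8 ∧ v.val < 8 then Example.L ⟨u.val, h.1⟩ ⟨v.val, h.2⟩ else if u = v then 0 else 4

lemma L_le : ∀ u v, Example.L u v ≤ 3 := by decide

lemma LL_small (n : ℕ) (u v : Fin n) (hu : u.val < 8) (hv : v.val < 8) :
    LL n u v = Example.L ⟨u.val, hu⟩ ⟨v.val, hv⟩ := by
  unfold LL
  rw [dif_pos ⟨hu, hv⟩]

lemma LL_large (n : ℕ) (u v : Fin n) (h : ¬ (u.val < 8 ∧ v.val < 8)) (hne : u ≠ v) : LL n u v = 4 := by
  unfold LL
  rw [dif_neg h, if_neg hne]

lemma LL_self (n : ℕ) (u : Fin n) : LL n u u = 0 := by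
  unfold LL
  by_cases h : u.val < 8 ∧ u.val < 8
  · rw [dif_pos h]
    exact Example.L_diag _
  · rw [dif_neg h, if_pos rfl]

lemma LL_le (n : ℕ) (u v : Fin n) : LL n u v ≤ 4 := by
  unfold LL
  split_ifs with h h'
  · have := L_le ⟨u.val, h.1⟩ ⟨v.val, h.2⟩
    omega
  · omega
  · omega

lemma LL_pos (n : ℕ) : ∀ u v : Fin n, u < v → 1 ≤ LL n u v := by
  intro u v huv
  unfold LL
  split_ifs with h h'
  · exact Example.L_pos _ _ (by rw [Fin.lt_def] at huv ⊢; exact huv)
  · exact absurd h' huv.ne
  · omega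

lemma LL_symm (n : ℕ) : ∀ u v : Fin n, LL n u v = LL n v u := by
  intro u v
  by_cases h : u.val < 8 ∧ v.val < 8
  · rw [LL_small n u v h.1 h.2, LL_small n v u h.2 h.1]
    exact Example.L_symm _ _
  · by_cases hne : u = v
    · rw [hne]
    · rw [LL_large n u v h hne, LL_large n v u (fun h' => h ⟨h'.2, h'.1⟩) (Ne.symm hne)]

/-- integral quasi-metrics for the multiples of the metric on eight points -/
lemma exists_T (k : ℕ) (hk : 2 ≤ k) : ∃ T : Fin 8 → Fin 8 → ℤ, (∀ u v, 0 ≤ T u v) ∧ (∀ u, T u u = 0) ∧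
    (∀ u v, T u v + T v u = k * (Example.L u v : ℤ)) ∧ (∀ u v w, T u w ≤ T u v + T v w) ∧
    ∀ u v, T u v ≤ 4 * k := by
  rcases Nat.even_or_odd' k with ⟨m, hm | hm⟩
  · refine ⟨fun u v => (m : ℤ) * (Example.L u v : ℤ), fun u v => by positivity,
      fun u => by simp [Example.L_diag], fun u v => ?_, fun u v w => ?_, fun u v => ?_⟩
    · show (m : ℤ) * (Example.L u v : ℤ) + (m : ℤ) * (Example.L v u : ℤ) = _
      rw [Example.L_symm v u, hm]
      push_cast
      ring
    · have h1 : (Example.L u w : ℤ) ≤ (Example.L u v : ℤ) + (Example.L v w : ℤ) := by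
        exact_mod_cast Example.L_tri u v w
      have h2 : (0 : ℤ) ≤ m := by positivity
      nlinarith
    · have h1 : (Example.L u v : ℤ) ≤ 3 := by exact_mod_cast L_le u v
      have h2 : (0 : ℤ) ≤ m := by positivity
      have h3 : (k : ℤ) = 2 * m := by exact_mod_cast hm
      rw [h3]
      show (m : ℤ) * (Example.L u v : ℤ) ≤ 4 * (2 * m)
      nlinarith
  · have h2 : ((m - 1 : ℕ) : ℤ) = (m : ℤ) - 1 := by omega
    have hk3 : (k : ℤ) = 2 * m + 1 := by exact_mod_cast hm
    have hm1 : (1 : ℤ) ≤ m := by omega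
    refine ⟨fun u v => Example.T3 u v + ((m - 1 : ℕ) : ℤ) * (Example.L u v : ℤ), fun u v => ?_,
      fun u => by simp [Example.L_diag, Example.T3_diag], fun u v => ?_, fun u v w => ?_, fun u v => ?_⟩
    · have := Example.T3_nonneg u v
      positivity
    · have h1 := Example.T3_symm u v
      simp only [h2]
      rw [Example.L_symm v u, hk3]
      linarith
    · have h1 : (Example.L u w : ℤ) ≤ (Example.L u v : ℤ) + (Example.L v w : ℤ) := by
        exact_mod_cast Example.L_tri u v w
      have h2 : (0 : ℤ) ≤ ((m - 1 : ℕ) : ℤ) := by positivity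
      have h3 := Example.T3_tri u v w
      nlinarith
    · have h1 : (Example.L u v : ℤ) ≤ 3 := by exact_mod_cast L_le u v
      have h3 : Example.T3 u v ≤ 9 := (by decide : ∀ u v, Example.T3 u v ≤ 9) u v
      simp only [h2]
      rw [hk3]
      nlinarith

lemma no_S : ¬ ∃ S : Fin 8 → Fin 8 → ℤ, (∀ u, S u u = 0) ∧
    (∀ u v, u ≠ v → S u v + S v u = (Example.L u v : ℤ)) ∧ ∀ u v w, S u w ≤ S u v + S v w := by
  rintro ⟨S, hd, hc, ht⟩
  have hc' : ∀ u v, u ≠ v → (S u v + S 0 u - S 0 v) + (S v u + S 0 v - S 0 u) = (Example.L u v : ℤ) := by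
    intro u v huv
    have := hc u v huv
    linarith
  refine Example.no_quasi (fun u v => S u v + S 0 u - S 0 v)
    (hc' 0 1 (by decide))
    (hc' 0 2 (by decide))
    (hc' 1 2 (by decide))
    (hc' 0 3 (by decide))
    (hc' 1 3 (by decide))
    (hc' 2 3 (by decide))
    (hc' 0 4 (by decide))
    (hc' 1 4 (by decide))
    (hc' 2 4 (by decide))
    (hc' 3 4 (by decide))
    (hc' 0 5 (by decide))
    (hc' 1 5 (by decide))
    (hc' 2 5 (by decide))
    (hc' 3 5 (by decide))
    (hc' 4 5 (by decide))
    (hc' 0 6 (by decide))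
    (hc' 1 6 (by decide))
    (hc' 2 6 (by decide))
    (hc' 3 6 (by decide))
    (hc' 4 6 (by decide))
    (hc' 5 6 (by decide))
    (hc' 0 7 (by decide))
    (hc' 1 7 (by decide))
    (hc' 2 7 (by decide))
    (hc' 3 7 (by decide))
    (hc' 4 7 (by decide))
    (hc' 5 7 (by decide))
    (hc' 6 7 (by decide))
    (fun v => ?_) (fun u v => ?_) (fun u v w => ?_)
  · have := hd 0
    linarith
  · have := ht 0 u v
    linarith
  · have := ht u v w
    linarith

lemma card_pair (n : ℕ) : Fintype.card (Net.Pair n) = n.choose 2 := by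
  have e : Net.Pair n ≃ Σ v : Fin n, Fin v.val :=
    { toFun := fun p => ⟨p.1.2, ⟨p.1.1.val, p.2⟩⟩
      invFun := fun q => ⟨(⟨q.2.val, q.2.isLt.trans q.1.isLt⟩, q.1), q.2.isLt⟩
      left_inv := fun p => rfl
      right_inv := fun q => rfl }
  rw [Fintype.card_congr e, Fintype.card_sigma]
  simp only [Fintype.card_fin]
  rw [Fin.sum_univ_eq_sum_range (fun i => i) n, Finset.sum_range_id, Nat.choose_two_right]

theorem upper (n M k : ℕ) (hk : 2 ≤ k) :
    ((((Net.complete (LL n) (LL_pos n)).graph M).subdiv k).gon) ≤ n.choose 2 := by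
  obtain ⟨T, h0, hd, hc, ht, hb⟩ := exists_T k hk
  have hk0 : (0 : ℤ) ≤ k := by positivity
  set TT : Fin n → Fin n → ℤ := fun u v =>
    if h : u.val < 8 ∧ v.val < 8 then T ⟨u.val, h.1⟩ ⟨v.val, h.2⟩ else if u = v then 0 else 2 * k with hTT
  have hs : ∀ u v : Fin n, (hu : u.val < 8) → (hv : v.val < 8) → TT u v = T ⟨u.val, hu⟩ ⟨v.val, hv⟩ := by
    intro u v hu hv
    simp only [hTT]
    rw [dif_pos ⟨hu, hv⟩]
  have hl : ∀ u v : Fin n, ¬ (u.val < 8 ∧ v.val < 8) → u ≠ v → TT u v = 2 * k := by
    intro u v h hne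
    simp only [hTT]
    rw [dif_neg h, if_neg hne]
  have hdd : ∀ u, TT u u = 0 := by
    intro u
    simp only [hTT]
    by_cases h : u.val < 8 ∧ u.val < 8
    · rw [dif_pos h]
      exact hd _
    · rw [dif_neg h, if_pos trivial]
  have hnn : ∀ u v, 0 ≤ TT u v := by
    intro u v
    simp only [hTT]
    split_ifs with h h'
    · exact h0 _ _
    · exact le_rfl
    · linarith
  rw [← card_pair n]
  refine Net.complete_upper (LL n) (LL_pos n) M k hk TT hnn hdd (fun u v hne => ?_) (LL_symm n)
    (fun u v w => ?_)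
  · by_cases h : u.val < 8 ∧ v.val < 8
    · rw [hs u v h.1 h.2, hs v u h.2 h.1, LL_small n u v h.1 h.2]
      exact hc _ _
    · rw [hl u v h hne, hl v u (fun h' => h ⟨h'.2, h'.1⟩) (Ne.symm hne), LL_large n u v h hne]
      push_cast
      ring
  · by_cases huw : u = w
    · rw [huw, hdd]
      exact add_nonneg (hnn _ _) (hnn _ _)
    by_cases huv : u = v
    · rw [huv, hdd, zero_add]
    by_cases hvw : v = w
    · rw [hvw, hdd, add_zero]
    by_cases hu : u.val < 8
    · by_cases hw : w.val < 8
      · by_cases hv : v.val < 8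
        · rw [hs u w hu hw, hs u v hu hv, hs v w hv hw]
          exact ht _ _ _
        · rw [hs u w hu hw, hl u v (fun h => hv h.2) huv, hl v w (fun h => hv h.1) hvw]
          have := hb ⟨u.val, hu⟩ ⟨w.val, hw⟩
          linarith
      · rw [hl u w (fun h => hw h.2) huw, hl v w (fun h => hw h.2) hvw]
        have := hnn u v
        linarith
    · rw [hl u w (fun h => hu h.1) huw, hl u v (fun h => hu h.1) huv]
      have := hnn v w
      linarith

theorem lower (n M : ℕ) (hn : 8 ≤ n) (hM : n.choose 2 < M) :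
    n.choose 2 < ((Net.complete (LL n) (LL_pos n)).graph M).gon := by
  by_contra hcon
  rw [not_lt] at hcon
  obtain ⟨S, hd, hc, ht⟩ := Net.complete_lower (LL n) (LL_pos n) M (by rw [card_pair]; exact hM)
    (LL_symm n) (by rw [card_pair]; exact hcon)
  apply no_S
  refine ⟨fun u v => S (Fin.castLE hn u) (Fin.castLE hn v), fun u => hd _, fun u v hne => ?_, fun u v w => ht _ _ _⟩
  have h := hc (Fin.castLE hn u) (Fin.castLE hn v) (fun h => hne (Fin.castLE_injective hn h))
  rw [LL_small n _ _ (by simp) (by simp)] at h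
  exact h

/-- For all `n ≥ 8` and `m` there is a finite connected loopless multigraph `G` with at least `m` edges
whose divisorial gonality is larger than `n (n - 1) / 2`, while all its regular subdivisions
`σ_k(G)`, `k ≥ 2`, in particular those with odd `k ≥ 3`, have divisorial gonality at most
`n (n - 1) / 2`. -/
theorem result : ∀ n m : ℕ, 8 ≤ n → ∃ (V E : Type) (_ : Fintype V) (_ : DecidableEq V) (_ : Fintype E)
    (_ : DecidableEq E) (G : MGraph V E), G.Connected ∧ m ≤ Fintype.card E ∧ n * (n - 1) / 2 < G.gon ∧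
      (∀ k : ℕ, Odd k → 3 ≤ k → (G.subdiv k).gon ≤ n * (n - 1) / 2) ∧
      (∀ k : ℕ, Even k → 2 ≤ k → (G.subdiv k).gon ≤ n * (n - 1) / 2) := by
  intro n m hn
  rw [← Nat.choose_two_right]
  have hM : n.choose 2 < n.choose 2 + 1 + m := by omega
  refine ⟨_, _, inferInstance, inferInstance, inferInstance, inferInstance,
    (Net.complete (LL n) (LL_pos n)).graph (n.choose 2 + 1 + m), ?_, ?_, lower n _ hn hM,
    fun k _ hk => upper n _ k (by omega), fun k _ hk => upper n _ k hk⟩
  · exact Net.complete_connected (LL n) (LL_pos n) _ (by omega) (by omega)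
  · have t : (Net.complete (LL n) (LL_pos n)).Thick :=
      ⟨((⟨(⟨0, by omega⟩, ⟨1, by omega⟩), by rw [Fin.lt_def]; norm_num⟩, false),
        (⟨(⟨0, by omega⟩, ⟨2, by omega⟩), by rw [Fin.lt_def]; norm_num⟩, false)),
        by
          intro h
          have h1 := congrArg (fun x : Net.Pair n × Bool => x.1.1.2.val) h
          simp at h1, rfl⟩
    have h1 := Fintype.card_le_of_injective
      (fun i : Fin (n.choose 2 + 1 + m) => (Sum.inr (t, i) :
        (Net.complete (LL n) (LL_pos n)).Edge (n.choose 2 + 1 + m)))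
      (fun i j h => by simpa using h)
    rw [Fintype.card_fin] at h1
    exact le_trans (by omega) h1

end Pool.Agent.Results.MP_d0d5df_co.LargeGonality
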